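import Pool.Agent.Helper54.SRD.Basic

/-!
# Passage to the limit in an increasing sequence of metrics
-/

open Set Filter MeasureTheory
open scoped Manifold ContDiff Topology

noncomputable section

namespace Pool.Agent.Helper17.SRD

open Pool.Agent.Helper54.SRD

/-- A curve of speed at most `c` for a metric has speed at most `c` for a smaller metric. -/
theorem speedLE_anti {E : Type*} [NormedAddCommGroup E] [NormedSpace ℝ E]
    {M : Type*} [TopologicalSpace M] [ChartedSpace E M] {G G' : AMetric E M}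
    (h : ∀ x : M, ∀ z ∈ tgt E x, ∀ u, G.G x z u u ≤ G'.G x z u u)
    {c : ℝ} {γ : ℝ → M} {t : ℝ} (hs : SpeedLE G' c γ t) : SpeedLE G c γ t := by
  refine ⟨hs.1, fun δ hδ => ?_⟩
  filter_upwards [hs.2 δ hδ] with p hp
  refine le_trans (Real.sqrt_le_sqrt ?_) hp
  exact h _ _ (ch_mem (mem_src _)) _

/-- Locally uniform limits of a constant value. -/
theorem lu_eq {M : Type*} [TopologicalSpace M] [T2Space M] {𝒰 : Filter ℕ} [𝒰.NeBot]
    {γ : ℕ → ℝ → M} {γ' : ℝ → M} (h : LU 𝒰 γ γ') {t : ℝ} {x : M} (hx : ∀ n, γ n t = x) :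
    γ' t = x := by
  by_contra hne
  obtain ⟨U, V, hU, hV, h1, h2, hd⟩ := t2_separation hne
  obtain ⟨r, hr, he⟩ := h t U (hU.mem_nhds h1)
  obtain ⟨n, hn⟩ := he.exists
  have h3 := hn t (by simpa using hr)
  rw [hx n] at h3
  exact (Set.disjoint_left.mp hd) h3 h2

variable (E : Type*) [NormedAddCommGroup E] [NormedSpace ℝ E] [FiniteDimensional ℝ E]
variable (M : Type*) [TopologicalSpace M] [ChartedSpace E M] [IsManifold 𝓘(ℝ, E) ∞ M]

/-- EPS, from LIM, LSC and OPS. -/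
theorem EPS (hLIM : S_LIM E M) (hLSC : S_LSC E M) (hOPS : S_OPS E M) : S_EPS E M := by
  intro hCM hT G ℓ ℓ' hℓ' hmono hlim x y hreach
  have hreach' : ∀ n, ∃ γ : ℝ → M, (∀ t, SpeedLE (G n) 1 γ t) ∧ γ 0 = x ∧ γ (ℓ n) = y :=
    fun n => (hreach n).2
  have h0 : ∀ n, 0 ≤ ℓ n := fun n => (hreach n).1
  choose g hg hg0 hgL using hreach'
  have hc0 : ∀ n, 0 ≤ ℓ n / ℓ' := fun n => div_nonneg (h0 n) hℓ'.le
  have hsp : ∀ n t, SpeedLE (G n) (ℓ n / ℓ') (fun s => g n ((ℓ n / ℓ') * s + 0)) t := by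
    intro n t
    have h1 := (hOPS (G n)).2.1 1 (ℓ n / ℓ') 0 (g n) t zero_le_one (hg n _)
    rwa [abs_of_nonneg (hc0 n), mul_one] at h1
  have hγ0 : ∀ n, (fun s => g n ((ℓ n / ℓ') * s + 0)) 0 = x := by
    intro n
    simp [hg0]
  have hγL : ∀ n, (fun s => g n ((ℓ n / ℓ') * s + 0)) ℓ' = y := by
    intro n
    show g n ((ℓ n / ℓ') * ℓ' + 0) = y
    rw [div_mul_cancel₀ _ hℓ'.ne', add_zero, hgL]
  have hcl : Tendsto (fun n => ℓ n / ℓ') atTop (𝓝 1) := by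
    have h1 := hlim.div_const ℓ'
    rwa [div_self hℓ'.ne'] at h1
  obtain ⟨C, hC⟩ := hcl.bddAbove_range
  have hC' : ∀ n, ℓ n / ℓ' ≤ C := fun n => hC ⟨n, rfl⟩
  have hCnn : 0 ≤ C := (hc0 0).trans (hC' 0)
  obtain ⟨γ', hγ'⟩ := hLIM hCM hT (G 0) (hyperfilter ℕ)
    (fun n s => g n ((ℓ n / ℓ') * s + 0)) C hCnn (by
      intro n t
      have h1 : SpeedLE (G 0) (ℓ n / ℓ') (fun s => g n ((ℓ n / ℓ') * s + 0)) t :=
        speedLE_anti (hmono 0 n (Nat.zero_le n)) (hsp n t)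
      exact (hOPS (G 0)).1 _ _ _ _ (hC' n) h1)
  have hle : (hyperfilter ℕ : Filter ℕ) ≤ atTop := by
    rw [← Nat.cofinite_eq_atTop]
    exact hyperfilter_le_cofinite
  refine ⟨γ', fun m t => ?_, ?_, ?_⟩
  · refine hLSC hT (G m) (hyperfilter ℕ : Filter ℕ) (fun n s => g n ((ℓ n / ℓ') * s + 0)) γ'
      (fun n => ℓ n / ℓ') 1 inferInstance hγ' hc0 (hcl.mono_left hle) ?_ t
    refine hle ?_
    filter_upwards [eventually_ge_atTop m] with n hn s
    exact speedLE_anti (hmono m n hn) (hsp n s)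
  · haveI := hT
    exact lu_eq hγ' hγ0
  · haveI := hT
    exact lu_eq hγ' hγL

end Pool.Agent.Helper17.SRD
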